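import Mathlib

/-!
# Countability of the sequences with small distance to the integers
-/

set_option autoImplicit false

open Filter Topology

namespace Pool.Agent.Q3.Spec

/-- Distance to the nearest integer. -/
noncomputable def nd (x : ℝ) : ℝ := |x - (round x : ℝ)|

theorem nd_nonneg (x : ℝ) : 0 ≤ nd x := abs_nonneg _

theorem nd_le_half (x : ℝ) : nd x ≤ 1 / 2 := abs_sub_round x

theorem nd_le (x : ℝ) (z : ℤ) : nd x ≤ |x - z| := round_le x z

theorem nd_bdd_above (r : ℕ → ℝ) : IsBoundedUnder (· ≤ ·) atTop (fun n => nd (r n)) :=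
  isBoundedUnder_of ⟨1 / 2, fun n => nd_le_half _⟩

theorem nd_bdd_below (r : ℕ → ℝ) : IsBoundedUnder (· ≥ ·) atTop (fun n => nd (r n)) :=
  isBoundedUnder_of ⟨0, fun n => nd_nonneg _⟩

theorem nd_cobdd (r : ℕ → ℝ) : IsCoboundedUnder (· ≤ ·) atTop (fun n => nd (r n)) :=
  (nd_bdd_below r).isCoboundedUnder_le

/-- The sum of the absolute values of the coefficients. -/
noncomputable def len (A : Polynomial ℤ) : ℝ := ∑ j ∈ Finset.range (A.natDegree + 1), |(A.coeff j : ℝ)|

theorem len_pos (A : Polynomial ℤ) (hA : A ≠ 0) : 0 < len A := by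
  unfold len
  apply Finset.sum_pos' (fun j _ => abs_nonneg _)
  refine ⟨A.natDegree, by simp, ?_⟩
  rw [abs_pos]
  have : A.coeff A.natDegree ≠ 0 := by
    rw [Polynomial.coeff_natDegree]
    exact Polynomial.leadingCoeff_ne_zero.mpr hA
  exact_mod_cast this

/-- The recurrence attached to `A`. -/
def Rec (A : Polynomial ℤ) (r : ℕ → ℝ) : Prop :=
  ∀ n, ∑ j ∈ Finset.range (A.natDegree + 1), (A.coeff j : ℝ) * r (n + j) = 0

theorem int_rec (A : Polynomial ℤ) (r : ℕ → ℝ) (hr : Rec A r) (c : ℝ) (hc : c * len A ≤ 1)
    (N : ℕ) (hN : ∀ n, N ≤ n → nd (r n) < c) (n : ℕ) (hn : N ≤ n) :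
    ∑ j ∈ Finset.range (A.natDegree + 1), A.coeff j * round (r (n + j)) = 0 := by
  have h1 : ((∑ j ∈ Finset.range (A.natDegree + 1), A.coeff j * round (r (n + j)) : ℤ) : ℝ) =
      - ∑ j ∈ Finset.range (A.natDegree + 1), (A.coeff j : ℝ) * (r (n + j) - round (r (n + j))) := by
    push_cast
    have h2 := hr n
    have h3 : ∑ j ∈ Finset.range (A.natDegree + 1), (A.coeff j : ℝ) * (r (n + j) - round (r (n + j)))
        = ∑ j ∈ Finset.range (A.natDegree + 1), (A.coeff j : ℝ) * r (n + j) -
          ∑ j ∈ Finset.range (A.natDegree + 1), (A.coeff j : ℝ) * round (r (n + j)) := by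
      rw [← Finset.sum_sub_distrib]
      apply Finset.sum_congr rfl
      intro j _
      ring
    rw [h3, h2]
    ring
  by_contra hne
  have hA0 : A ≠ 0 := by
    rintro rfl
    simp at hne
  have h4 : (1 : ℝ) ≤ |((∑ j ∈ Finset.range (A.natDegree + 1), A.coeff j * round (r (n + j)) : ℤ) : ℝ)| := by
    have := Int.one_le_abs hne
    exact_mod_cast this
  rw [h1, abs_neg] at h4
  have h5 : |∑ j ∈ Finset.range (A.natDegree + 1), (A.coeff j : ℝ) * (r (n + j) - round (r (n + j)))| ≤
      ∑ j ∈ Finset.range (A.natDegree + 1), |(A.coeff j : ℝ)| * nd (r (n + j)) := by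
    refine (Finset.abs_sum_le_sum_abs _ _).trans (le_of_eq ?_)
    apply Finset.sum_congr rfl
    intro j _
    rw [abs_mul]; rfl
  have h6 : ∑ j ∈ Finset.range (A.natDegree + 1), |(A.coeff j : ℝ)| * nd (r (n + j)) <
      ∑ j ∈ Finset.range (A.natDegree + 1), |(A.coeff j : ℝ)| * c := by
    apply Finset.sum_lt_sum
    · intro j _
      apply mul_le_mul_of_nonneg_left (hN _ (by omega)).le (abs_nonneg _)
    · refine ⟨A.natDegree, by simp, ?_⟩
      apply mul_lt_mul_of_pos_left (hN _ (by omega))
      rw [abs_pos]
      have : A.coeff A.natDegree ≠ 0 := by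
        rw [Polynomial.coeff_natDegree]
        exact Polynomial.leadingCoeff_ne_zero.mpr hA0
      exact_mod_cast this
  rw [← Finset.sum_mul] at h6
  have h7 : (∑ j ∈ Finset.range (A.natDegree + 1), |(A.coeff j : ℝ)|) * c = c * len A := by
    unfold len; ring
  linarith

/-- The main countability statement. -/
theorem countable_core (A : Polynomial ℤ) (hA : A ≠ 0) (X : Set (ℕ → ℝ)) (hX : ∀ r ∈ X, Rec A r)
    (hinj : ∀ r ∈ X, ∀ r' ∈ X, (∃ B : ℝ, ∀ n, |r n - r' n| ≤ B) → r = r') :
    {r ∈ X | limsup (fun n => nd (r n)) atTop < 1 / len A}.Countable := by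
  classical
  set c : ℝ := 1 / len A with hc
  have hcl : c * len A ≤ 1 := by
    rw [hc]
    have := len_pos A hA
    field_simp
    exact le_rfl
  have hev : ∀ r ∈ {r ∈ X | limsup (fun n => nd (r n)) atTop < c}, ∃ N : ℕ, ∀ n, N ≤ n →
      nd (r n) < c := by
    intro r hr
    exact eventually_atTop.mp (eventually_lt_of_limsup_lt hr.2 (nd_bdd_above r))
  choose! N hN using hev
  set D := A.natDegree with hD
  set Φ : (ℕ → ℝ) → ℕ × (Fin D → ℤ) := fun r => (N r, fun i => round (r (N r + i.1))) with hΦ
  have hinjΦ : Set.InjOn Φ {r ∈ X | limsup (fun n => nd (r n)) atTop < c} := by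
    intro r hr r' hr' hrr
    simp only [hΦ, Prod.mk.injEq] at hrr
    obtain ⟨e1, e2⟩ := hrr
    apply hinj r hr.1 r' hr'.1
    -- the rounded values agree from N on
    have key : ∀ m, ∀ i, i ≤ m → round (r (N r + i)) = round (r' (N r + i)) := by
      intro m
      induction m with
      | zero =>
        intro i hi
        have hi0 : i = 0 := by omega
        subst hi0
        rcases Nat.eq_zero_or_pos D with h | h
        · -- D = 0: recurrence says coeff 0 * u = 0
          have h1 := int_rec A r (hX r hr.1) c hcl (N r) (hN r hr) (N r) le_rfl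
          have h2 := int_rec A r' (hX r' hr'.1) c hcl (N r') (hN r' hr') (N r') le_rfl
          rw [← hD, h] at h1 h2
          simp only [zero_add, Finset.sum_range_one, add_zero] at h1 h2
          have hc0 : A.coeff 0 ≠ 0 := by
            have := Polynomial.leadingCoeff_ne_zero.mpr hA
            rwa [Polynomial.leadingCoeff, ← hD, h] at this
          have h3 := (mul_eq_zero.mp h1).resolve_left hc0
          have h4 := (mul_eq_zero.mp h2).resolve_left hc0
          rw [← e1] at h4
          rw [add_zero, h3, h4]
        · have := congrFun e2 ⟨0, h⟩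
          simp only at this
          rw [this, ← e1]
      | succ m ih =>
        intro i hi
        rcases Nat.lt_or_ge i (m + 1) with h | h
        · exact ih i (by omega)
        · have hi' : i = m + 1 := by omega
          subst hi'
          rcases Nat.lt_or_ge (m + 1) D with h' | h'
          · have := congrFun e2 ⟨m + 1, h'⟩
            simp only at this
            rw [this, ← e1]
          · -- use the recurrence at n = N + (m+1-D)
            obtain ⟨s, hs⟩ : ∃ s, m + 1 = s + D := ⟨m + 1 - D, by omega⟩
            have h1 := int_rec A r (hX r hr.1) c hcl (N r) (hN r hr) (N r + s) (by omega)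
            have h2 := int_rec A r' (hX r' hr'.1) c hcl (N r') (hN r' hr') (N r' + s) (by omega)
            rw [Finset.sum_range_succ, ← hD] at h1 h2
            have h3 : ∑ j ∈ Finset.range D, A.coeff j * round (r (N r + s + j)) =
                ∑ j ∈ Finset.range D, A.coeff j * round (r' (N r' + s + j)) := by
              apply Finset.sum_congr rfl
              intro j hj
              rw [Finset.mem_range] at hj
              have := ih (s + j) (by omega)
              rw [← add_assoc] at this
              rw [this, ← e1]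
            rw [h3] at h1
            have hc0 : A.coeff D ≠ 0 := by
              have := Polynomial.leadingCoeff_ne_zero.mpr hA
              rwa [Polynomial.leadingCoeff, ← hD] at this
            have h4 : A.coeff D * round (r (N r + s + D)) = A.coeff D * round (r' (N r' + s + D)) := by
              linarith
            have h5 := mul_left_cancel₀ hc0 h4
            rw [hs, ← add_assoc, h5, ← e1]
    -- bounded difference
    have hfin : ∃ B : ℝ, ∀ n, n < N r → |r n - r' n| ≤ B := by
      refine ⟨∑ n ∈ Finset.range (N r), |r n - r' n|, fun n hn => ?_⟩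
      exact Finset.single_le_sum (f := fun n => |r n - r' n|) (fun i _ => abs_nonneg _)
        (Finset.mem_range.mpr hn)
    obtain ⟨B, hB⟩ := hfin
    refine ⟨max B 1, fun n => ?_⟩
    rcases Nat.lt_or_ge n (N r) with h | h
    · exact (hB n h).trans (le_max_left _ _)
    · refine le_trans ?_ (le_max_right _ _)
      obtain ⟨i, rfl⟩ := Nat.exists_eq_add_of_le h
      have h1 := key i i le_rfl
      have h2 := nd_le_half (r (N r + i))
      have h3 := nd_le_half (r' (N r + i))
      unfold nd at h2 h3
      rw [h1] at h2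
      calc |r (N r + i) - r' (N r + i)| = |(r (N r + i) - round (r' (N r + i))) -
            (r' (N r + i) - round (r' (N r + i)))| := by congr 1; ring
        _ ≤ |r (N r + i) - round (r' (N r + i))| + |r' (N r + i) - round (r' (N r + i))| := abs_sub _ _
        _ ≤ 1 := by linarith
  exact Set.MapsTo.countable_of_injOn (Set.mapsTo_image Φ _) hinjΦ (Set.to_countable _)

/-- A set of reals whose part below some `c > 0` is countable misses a point of `[0,1/2]`. -/
theorem exists_missing (L : Set ℝ) (c : ℝ) (hc : 0 < c) (h : (L ∩ Set.Iio c).Countable) :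
    ∃ v ∈ Set.Ioo (0 : ℝ) (min c (1 / 2)), v ∉ L := by
  by_contra hcon
  push Not at hcon
  have h1 : Set.Ioo (0 : ℝ) (min c (1 / 2)) ⊆ L ∩ Set.Iio c := fun v hv =>
    ⟨hcon v hv, hv.2.trans_le (min_le_left _ _)⟩
  have h2 := (h.mono h1).measure_zero MeasureTheory.volume
  rw [Real.volume_Ioo, ENNReal.ofReal_eq_zero, sub_zero] at h2
  have : 0 < min c (1 / 2) := lt_min hc (by norm_num)
  linarith

end Pool.Agent.Q3.Spec
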