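import Mathlib

/-!
# The shift operator on sequences
-/

set_option autoImplicit false

open Polynomial

namespace Pool.Agent.Q3.Spec

/-- The shift. -/
def sft : (ℕ → ℂ) →ₗ[ℂ] (ℕ → ℂ) where
  toFun x := fun n => x (n + 1)
  map_add' _ _ := rfl
  map_smul' _ _ := rfl

theorem sft_pow (j : ℕ) (x : ℕ → ℂ) (n : ℕ) : ((sft ^ j) x) n = x (n + j) := by
  induction j generalizing n with
  | zero => rfl
  | succ j ih =>
    rw [pow_succ', Module.End.mul_apply]
    change ((sft ^ j) x) (n + 1) = _
    rw [ih]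
    congr 1
    omega

theorem aeval_sft (Q : ℂ[X]) (x : ℕ → ℂ) (n : ℕ) :
    (aeval sft Q x) n = ∑ j ∈ Finset.range (Q.natDegree + 1), Q.coeff j * x (n + j) := by
  rw [aeval_eq_sum_range]
  simp only [LinearMap.sum_apply, LinearMap.smul_apply, Finset.sum_apply, Pi.smul_apply, sft_pow,
    smul_eq_mul]

/-- The basic sequences. -/
def ex (g : ℂ[X]) (z : ℂ) : ℕ → ℂ := fun n => g.eval (n : ℂ) * z ^ n

theorem sub_apply_ex (g : ℂ[X]) (z : ℂ) :
    (aeval sft (X - C z)) (ex g z) = ex (C z * (g.comp (X + C 1) - g)) z := by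
  funext n
  simp only [map_sub, aeval_X, aeval_C, LinearMap.sub_apply, Module.algebraMap_end_apply,
    Pi.sub_apply, Pi.smul_apply, smul_eq_mul, ex, eval_mul, eval_C, eval_sub, eval_comp, eval_add,
    eval_X]
  change g.eval ((n + 1 : ℕ) : ℂ) * z ^ (n + 1) - z * (g.eval (n : ℂ) * z ^ n) = _
  push_cast
  ring

theorem natDegree_diff (g : ℂ[X]) (k : ℕ) (hg : g.natDegree ≤ k + 1) :
    (g.comp (X + C 1) - g).natDegree ≤ k := by
  rcases Nat.eq_zero_or_pos g.natDegree with h | h
  · have : g = C (g.coeff 0) := eq_C_of_natDegree_eq_zero h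
    rw [this]
    simp
  · have h1 : (X + C (1 : ℂ)).natDegree = 1 := natDegree_X_add_C 1
    have hnd : (g.comp (X + C 1)).natDegree = g.natDegree := by
      rw [natDegree_comp, h1, mul_one]
    have hg0 : g ≠ 0 := by
      rintro rfl
      simp at h
    have hgc0 : g.comp (X + C 1) ≠ 0 := by
      intro h0
      rw [h0, natDegree_zero] at hnd
      omega
    have hdeg : (g.comp (X + C 1)).degree = g.degree := by
      rw [degree_eq_natDegree hgc0, degree_eq_natDegree hg0, hnd]
    have hlc : (g.comp (X + C 1)).leadingCoeff = g.leadingCoeff := by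
      have hl : (X + C (1 : ℂ)).leadingCoeff = 1 := leadingCoeff_X_add_C 1
      rw [leadingCoeff_comp (by rw [h1]; exact one_ne_zero), hl, one_pow, mul_one]
    have hlt := degree_sub_lt_left hdeg hgc0 hlc
    rw [hdeg, degree_eq_natDegree hg0] at hlt
    by_cases h0 : g.comp (X + C 1) - g = 0
    · rw [h0]; simp
    · rw [degree_eq_natDegree h0] at hlt
      have : (g.comp (X + C 1) - g).natDegree < g.natDegree := by exact_mod_cast hlt
      omega

theorem kill_ex (z : ℂ) (k : ℕ) : ∀ g : ℂ[X], g.natDegree ≤ k →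
    (aeval sft ((X - C z) ^ (k + 1))) (ex g z) = 0 := by
  induction k with
  | zero =>
    intro g hg
    rw [zero_add, pow_one, sub_apply_ex]
    have : g = C (g.coeff 0) := eq_C_of_natDegree_eq_zero (by omega)
    rw [this]
    funext n
    simp [ex]
  | succ k ih =>
    intro g hg
    rw [pow_succ, map_mul, Module.End.mul_apply, sub_apply_ex]
    apply ih
    refine (natDegree_C_mul_le _ _).trans (natDegree_diff g k hg)

theorem kill_of_dvd (z : ℂ) (k : ℕ) (g : ℂ[X]) (hg : g.natDegree ≤ k) (Q : ℂ[X])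
    (hQ : (X - C z) ^ (k + 1) ∣ Q) : (aeval sft Q) (ex g z) = 0 := by
  obtain ⟨R, rfl⟩ := hQ
  rw [mul_comm, map_mul, Module.End.mul_apply, kill_ex z k g hg, map_zero]

/-- A bounded sequence killed by a product of `X - z` with `|z| > 1` vanishes. -/
theorem bounded_kill (l : List ℂ) (hl : ∀ z ∈ l, 1 < ‖z‖) : ∀ x : ℕ → ℂ,
    (∃ B : ℝ, ∀ n, ‖x n‖ ≤ B) → (aeval sft (l.map (fun z => X - C z)).prod) x = 0 → x = 0 := by
  induction l with
  | nil =>
    intro x _ h
    simpa using h
  | cons z l ih =>
    intro x hx h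
    rw [List.map_cons, List.prod_cons, mul_comm, map_mul, Module.End.mul_apply] at h
    obtain ⟨B, hB⟩ := hx
    have h1 : (aeval sft (X - C z)) x = 0 := by
      apply ih (fun w hw => hl w (List.mem_cons_of_mem _ hw)) _ _ h
      refine ⟨B + ‖z‖ * B, fun n => ?_⟩
      have : ((aeval sft (X - C z)) x) n = x (n + 1) - z * x n := by
        simp only [map_sub, aeval_X, aeval_C, LinearMap.sub_apply, Module.algebraMap_end_apply,
          Pi.sub_apply, Pi.smul_apply, smul_eq_mul]
        rfl
      rw [this]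
      calc ‖x (n + 1) - z * x n‖ ≤ ‖x (n + 1)‖ + ‖z * x n‖ := norm_sub_le _ _
        _ = ‖x (n + 1)‖ + ‖z‖ * ‖x n‖ := by rw [norm_mul]
        _ ≤ B + ‖z‖ * B := by
          have := hB n
          have := hB (n + 1)
          gcongr
    have h2 : ∀ n, x (n + 1) = z * x n := by
      intro n
      have := congrFun h1 n
      simp only [map_sub, aeval_X, aeval_C, LinearMap.sub_apply, Module.algebraMap_end_apply,
        Pi.sub_apply, Pi.smul_apply, smul_eq_mul, Pi.zero_apply] at this
      change x (n + 1) - z * x n = 0 at this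
      linear_combination this
    have h3 : ∀ n, x n = z ^ n * x 0 := by
      intro n
      induction n with
      | zero => simp
      | succ n ih => rw [h2, ih, pow_succ]; ring
    have hz := hl z List.mem_cons_self
    have hx0 : x 0 = 0 := by
      by_contra hne
      have hpos : 0 < ‖x 0‖ := norm_pos_iff.mpr hne
      obtain ⟨n, hn⟩ := pow_unbounded_of_one_lt (B / ‖x 0‖) hz
      have h4 := hB n
      rw [h3, norm_mul, norm_pow] at h4
      rw [div_lt_iff₀ hpos] at hn
      linarith
    funext n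
    rw [h3, hx0, mul_zero]
    rfl

end Pool.Agent.Q3.Spec
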