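import Mathlib
import Pool.Agent.Q3.Spec.Core
import Pool.Agent.Q3.Spec.Shift

/-!
# Multiplicative Lagrange spectra of integer polynomials
-/

set_option autoImplicit false

open Filter Topology Polynomial

namespace Pool.Agent.Q3.Spec

/-- The complex roots of `P` of modulus `> 1`. -/
noncomputable def expRoots (P : ℤ[X]) : Finset ℂ := by
  classical
  exact ((P.map (Int.castRingHom ℂ)).roots.toFinset).filter (fun z => 1 < ‖z‖)

theorem mem_expRoots (P : ℤ[X]) (hP : P ≠ 0) (z : ℂ) :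
    z ∈ expRoots P ↔ aeval z P = 0 ∧ 1 < ‖z‖ := by
  classical
  unfold expRoots
  rw [Finset.mem_filter, Multiset.mem_toFinset, mem_roots', IsRoot.def]
  have h : P.map (Int.castRingHom ℂ) ≠ 0 :=
    (Polynomial.map_ne_zero_iff (RingHom.injective_int _)).mpr hP
  rw [eval_map, aeval_def]
  constructor
  · rintro ⟨⟨_, h1⟩, h2⟩
    exact ⟨h1, h2⟩
  · rintro ⟨h1, h2⟩
    exact ⟨⟨h, h1⟩, h2⟩

/-- The families `g` of complex polynomials of degree `≤ k`, indexed by the expanding roots and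
compatible with complex conjugation. -/
def Xi (P : ℤ[X]) (k : ℕ) : Set (ℂ → ℂ[X]) :=
  {g | ∀ z ∈ expRoots P, (g z).natDegree ≤ k ∧
    g (starRingEnd ℂ z) = (g z).map (starRingEnd ℂ)}

/-- The multiplicative Lagrange spectrum of order `k` of `P`: the set of all
`limsup ‖x_n‖`, `x_n = ∑ g_z(n) z^n` over the roots `z` of `P` with `|z| > 1`, `g ∈ Xi P k`. -/
def LSpec (k : ℕ) (P : ℤ[X]) : Set ℝ :=
  {v | ∃ g ∈ Xi P k, ∃ x : ℕ → ℝ,
    (∀ n : ℕ, (x n : ℂ) = ∑ z ∈ expRoots P, (g z).eval (n : ℂ) * z ^ n) ∧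
    limsup (fun n => nd (x n)) atTop = v}

theorem sum_ex_kill (P : ℤ[X]) (k : ℕ) (g : ℂ → ℂ[X]) (hg : ∀ z ∈ expRoots P, (g z).natDegree ≤ k)
    (Q : ℂ[X]) (hQ : ∀ z ∈ expRoots P, (X - C z) ^ (k + 1) ∣ Q) (x : ℕ → ℂ)
    (hx : ∀ n : ℕ, x n = ∑ z ∈ expRoots P, (g z).eval (n : ℂ) * z ^ n) : (aeval sft Q) x = 0 := by
  have h1 : x = ∑ z ∈ expRoots P, ex (g z) z := by
    funext n
    rw [hx n, Finset.sum_apply]
    rfl
  rw [h1, map_sum]
  apply Finset.sum_eq_zero
  intro z hz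
  exact kill_of_dvd z k (g z) (hg z hz) Q (hQ z hz)

theorem rec_of_mem (P : ℤ[X]) (hP : P ≠ 0) (k : ℕ) (g : ℂ → ℂ[X])
    (hg : ∀ z ∈ expRoots P, (g z).natDegree ≤ k) (x : ℕ → ℝ)
    (hx : ∀ n : ℕ, (x n : ℂ) = ∑ z ∈ expRoots P, (g z).eval (n : ℂ) * z ^ n) :
    Rec (P ^ (k + 1)) x := by
  intro n
  have h1 := sum_ex_kill P k g hg ((P ^ (k + 1)).map (Int.castRingHom ℂ)) (by
    intro z hz
    rw [Polynomial.map_pow]
    apply pow_dvd_pow_of_dvd
    rw [dvd_iff_isRoot, IsRoot.def, eval_map]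
    have h3 := ((mem_expRoots P hP z).mp hz).1
    rw [aeval_def] at h3
    exact h3) (fun n => (x n : ℂ)) hx
  have h2 := congrFun h1 n
  rw [aeval_sft, natDegree_map_eq_of_injective (RingHom.injective_int _)] at h2
  simp only [coeff_map, eq_intCast, Pi.zero_apply] at h2
  exact_mod_cast h2

theorem eq_of_bounded (P : ℤ[X]) (hP : P ≠ 0) (k : ℕ) (g g' : ℂ → ℂ[X])
    (hg : ∀ z ∈ expRoots P, (g z).natDegree ≤ k) (hg' : ∀ z ∈ expRoots P, (g' z).natDegree ≤ k)
    (x x' : ℕ → ℝ)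
    (hx : ∀ n : ℕ, (x n : ℂ) = ∑ z ∈ expRoots P, (g z).eval (n : ℂ) * z ^ n)
    (hx' : ∀ n : ℕ, (x' n : ℂ) = ∑ z ∈ expRoots P, (g' z).eval (n : ℂ) * z ^ n)
    (hb : ∃ B : ℝ, ∀ n, |x n - x' n| ≤ B) : x = x' := by
  classical
  set l : List ℂ := ((expRoots P).toList.flatMap (fun z => List.replicate (k + 1) z)) with hl
  set y : ℕ → ℂ := fun n => (x n : ℂ) - (x' n : ℂ) with hy
  have hyn : ∀ n : ℕ, y n = ∑ z ∈ expRoots P, (g z - g' z).eval (n : ℂ) * z ^ n := by
    intro n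
    simp only [hy]
    rw [hx, hx', ← Finset.sum_sub_distrib]
    apply Finset.sum_congr rfl
    intro z _
    rw [eval_sub]; ring
  have hprod : (l.map (fun z => X - C z)).prod = ∏ z ∈ expRoots P, (X - C z) ^ (k + 1) := by
    have h1 : ∀ s : List ℂ, ((s.flatMap (fun z => List.replicate (k + 1) z)).map
        (fun z => X - C z)).prod = (s.map (fun z => (X - C z) ^ (k + 1))).prod := by
      intro s
      induction s with
      | nil => rfl
      | cons a s ih =>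
        rw [List.flatMap_cons, List.map_append, List.prod_append, ih, List.map_replicate,
          List.prod_replicate, List.map_cons, List.prod_cons]
    rw [hl, h1, Finset.prod_map_toList]
  have h0 : y = 0 := by
    apply bounded_kill l
    · intro z hz
      rw [hl, List.mem_flatMap] at hz
      obtain ⟨w, hw, hz⟩ := hz
      rw [List.mem_replicate] at hz
      rw [hz.2]
      exact ((mem_expRoots P hP w).mp (Finset.mem_toList.mp hw)).2
    · obtain ⟨B, hB⟩ := hb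
      refine ⟨B, fun n => ?_⟩
      simp only [hy]
      rw [← Complex.ofReal_sub, Complex.norm_real]
      exact hB n
    · rw [hprod]
      apply sum_ex_kill P k (fun z => g z - g' z) _ _ _ y hyn
      · intro z hz
        exact (natDegree_sub_le _ _).trans (max_le (hg z hz) (hg' z hz))
      · intro z hz
        exact Finset.dvd_prod_of_mem (fun z => (X - C z) ^ (k + 1)) hz
  funext n
  have := congrFun h0 n
  simp only [hy, Pi.zero_apply] at this
  have h2 := sub_eq_zero.mp this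
  exact_mod_cast h2

/-- The multiplicative Lagrange spectrum is countable near `0`. -/
theorem LSpec_countable (P : ℤ[X]) (hP : P ≠ 0) (k : ℕ) :
    (LSpec k P ∩ Set.Iio (1 / len (P ^ (k + 1)))).Countable := by
  set A := P ^ (k + 1) with hA
  have hA0 : A ≠ 0 := pow_ne_zero _ hP
  set S : Set (ℕ → ℝ) := {x | ∃ g ∈ Xi P k,
    ∀ n : ℕ, (x n : ℂ) = ∑ z ∈ expRoots P, (g z).eval (n : ℂ) * z ^ n} with hS
  have hrec : ∀ x ∈ S, Rec A x := by
    rintro x ⟨g, hg, hx⟩
    exact rec_of_mem P hP k g (fun z hz => (hg z hz).1) x hx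
  have hinj : ∀ x ∈ S, ∀ x' ∈ S, (∃ B : ℝ, ∀ n, |x n - x' n| ≤ B) → x = x' := by
    rintro x ⟨g, hg, hx⟩ x' ⟨g', hg', hx'⟩ hb
    exact eq_of_bounded P hP k g g' (fun z hz => (hg z hz).1) (fun z hz => (hg' z hz).1) x x' hx hx' hb
  have h := countable_core A hA0 S hrec hinj
  refine (h.image (fun r => limsup (fun n => nd (r n)) atTop)).mono ?_
  rintro v ⟨⟨g, hg, x, hx, hlim⟩, hv⟩
  refine ⟨x, ⟨⟨g, hg, hx⟩, ?_⟩, hlim⟩
  rw [hlim]; exact hv

end Pool.Agent.Q3.Spec
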