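import Mathlib
import Pool.Agent.Q3.Spec.Core

/-!
# Small values in the spectrum of a Salem number
-/

set_option autoImplicit false

open Filter Topology

namespace Pool.Agent.Q3.Spec

/-- Simultaneous recurrence on a torus. -/
theorem torus_rec {ι : Type*} [Fintype ι] (z : ι → ℂ) (hz : ∀ i, ‖z i‖ ≤ 1) (ε : ℝ) (hε : 0 < ε) :
    ∃ n : ℕ, 1 ≤ n ∧ ∃ a : ℕ, ∀ i, ‖z i ^ a * (z i ^ n - 1)‖ < ε := by
  have hb : ∀ n : ℕ, (fun i => z i ^ n) ∈ Metric.closedBall (0 : ι → ℂ) 1 := by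
    intro n
    rw [mem_closedBall_zero_iff, pi_norm_le_iff_of_nonneg zero_le_one]
    intro i
    rw [norm_pow]
    exact pow_le_one₀ (norm_nonneg _) (hz i)
  obtain ⟨w, _, φ, hφ, hlim⟩ := (isCompact_closedBall (0 : ι → ℂ) 1).tendsto_subseq hb
  have hc := hlim.cauchySeq
  rw [Metric.cauchySeq_iff] at hc
  obtain ⟨N, hN⟩ := hc ε hε
  have h1 := hN (N + 1) (by omega) N le_rfl
  have h2 : φ N < φ (N + 1) := hφ (by omega)
  refine ⟨φ (N + 1) - φ N, by omega, φ N, fun i => ?_⟩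
  rw [dist_eq_norm] at h1
  have h3 := (norm_le_pi_norm ((fun i => z i ^ φ (N + 1)) - (fun i => z i ^ φ N)) i).trans_lt h1
  have h4 : z i ^ φ N * (z i ^ (φ (N + 1) - φ N) - 1) = z i ^ φ (N + 1) - z i ^ φ N := by
    rw [mul_sub, ← pow_add, mul_one, Nat.add_sub_cancel' h2.le]
  rw [h4]
  exact h3

theorem geom_bound (w : ℂ) (hw : ‖w‖ ≤ 1) (hw1 : w ≠ 1) (M : ℕ) :
    ‖∑ m ∈ Finset.range M, w ^ m‖ ≤ 2 / ‖w - 1‖ := by
  have h0 : 0 < ‖w - 1‖ := norm_pos_iff.mpr (sub_ne_zero.mpr hw1)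
  rw [geom_sum_eq hw1, norm_div]
  gcongr
  calc ‖w ^ M - 1‖ ≤ ‖w ^ M‖ + ‖(1 : ℂ)‖ := norm_sub_le _ _
    _ ≤ 1 + 1 := by
      rw [norm_pow, norm_one]
      gcongr
      exact pow_le_one₀ (norm_nonneg _) hw
    _ = 2 := by norm_num

/-- If a finite combination of powers of distinct unimodular numbers tends to zero then the
coefficients vanish. -/
theorem coeff_zero {ι : Type*} [DecidableEq ι] (U : Finset ι) (z c : ι → ℂ)
    (hz : ∀ i ∈ U, ‖z i‖ = 1) (hinj : ∀ i ∈ U, ∀ j ∈ U, z i = z j → i = j)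
    (hlim : Tendsto (fun m : ℕ => ∑ i ∈ U, c i * z i ^ m) atTop (𝓝 0)) : ∀ τ ∈ U, c τ = 0 := by
  intro τ hτ
  set s : ℕ → ℂ := fun m => ∑ i ∈ U, c i * z i ^ m with hs
  set v : ℂ := (z τ)⁻¹ with hv
  have hzτ := hz τ hτ
  have hz0 : z τ ≠ 0 := by
    intro h; rw [h, norm_zero] at hzτ; exact zero_ne_one hzτ
  have hvn : ‖v‖ = 1 := by rw [hv, norm_inv, hzτ, inv_one]
  -- s m * v^m tends to 0, so its Cesaro means do
  have h1 : Tendsto (fun m : ℕ => s m * v ^ m) atTop (𝓝 0) := by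
    rw [tendsto_zero_iff_norm_tendsto_zero] at hlim ⊢
    refine hlim.congr (fun m => ?_)
    rw [norm_mul, norm_pow, hvn, one_pow, mul_one]
  have h2 := h1.cesaro_smul
  -- but the means tend to c τ
  have h3 : ∀ M : ℕ, ∑ m ∈ Finset.range M, s m * v ^ m =
      M * c τ + ∑ i ∈ U.erase τ, c i * ∑ m ∈ Finset.range M, (z i * v) ^ m := by
    intro M
    have e1 : ∀ m, s m * v ^ m = c τ + ∑ i ∈ U.erase τ, c i * (z i * v) ^ m := by
      intro m
      simp only [hs]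
      rw [← Finset.add_sum_erase U _ hτ, add_mul, Finset.sum_mul]
      congr 1
      · rw [mul_assoc, ← mul_pow, hv, mul_inv_cancel₀ hz0, one_pow, mul_one]
      · apply Finset.sum_congr rfl
        intro i _
        rw [mul_pow]; ring
    simp only [e1]
    rw [Finset.sum_add_distrib, Finset.sum_const, Finset.card_range, nsmul_eq_mul, Finset.sum_comm]
    congr 1
    apply Finset.sum_congr rfl
    intro i _
    rw [Finset.mul_sum]
  -- bound the second part
  set B : ℝ := ∑ i ∈ U.erase τ, ‖c i‖ * (2 / ‖z i * v - 1‖) with hB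
  have h4 : ∀ M : ℕ, ‖∑ i ∈ U.erase τ, c i * ∑ m ∈ Finset.range M, (z i * v) ^ m‖ ≤ B := by
    intro M
    refine (norm_sum_le _ _).trans (Finset.sum_le_sum (fun i hi => ?_))
    rw [norm_mul]
    gcongr
    obtain ⟨hne, hiU⟩ := Finset.mem_erase.mp hi
    apply geom_bound
    · rw [norm_mul, hz i hiU, hvn, mul_one]
    · intro h
      apply hne
      apply hinj i hiU τ hτ
      rw [hv, mul_inv_eq_one₀ hz0] at h
      exact h
  have h5 : Tendsto (fun M : ℕ => ((M : ℝ)⁻¹ : ℝ) • (∑ m ∈ Finset.range M, s m * v ^ m)) atTop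
      (𝓝 (c τ)) := by
    have e2 : Tendsto (fun M : ℕ => ((M : ℝ)⁻¹ : ℝ) •
        (∑ i ∈ U.erase τ, c i * ∑ m ∈ Finset.range M, (z i * v) ^ m)) atTop (𝓝 0) := by
      rw [tendsto_zero_iff_norm_tendsto_zero]
      have hinv : Tendsto (fun M : ℕ => ((M : ℝ)⁻¹ : ℝ) * B) atTop (𝓝 0) := by
        have := ((tendsto_inv_atTop_zero (𝕜 := ℝ)).comp tendsto_natCast_atTop_atTop).mul_const B
        simpa using this
      refine squeeze_zero (fun M => norm_nonneg _) (fun M => ?_) hinv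
      rw [norm_smul, Real.norm_of_nonneg (by positivity)]
      gcongr
      exact h4 M
    have e3 : Tendsto (fun _ : ℕ => c τ) atTop (𝓝 (c τ)) := tendsto_const_nhds
    have e4 := e3.add e2
    rw [add_zero] at e4
    refine e4.congr' ?_
    filter_upwards [eventually_gt_atTop 0] with M hM
    rw [h3, smul_add]
    congr 1
    have hM' : (M : ℂ) ≠ 0 := by exact_mod_cast hM.ne'
    rw [Complex.real_smul]
    push_cast
    field_simp
  exact (tendsto_nhds_unique h2 h5).symm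

end Pool.Agent.Q3.Spec
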