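import Mathlib
import Pool.Agent.Q3.Spec.SalemCore

/-!
# Small values in the spectrum of a Salem number, II
-/

set_option autoImplicit false

open Filter Topology Polynomial

namespace Pool.Agent.Q3.Spec

/-- Salem numbers. -/
structure IsSalem (α : ℝ) : Prop where
  one_lt : 1 < α
  integral : IsIntegral ℤ α
  conj_le : ∀ z : ℂ, aeval z (minpoly ℚ α) = 0 → z ≠ α → ‖z‖ ≤ 1
  conj_one : ∃ z : ℂ, aeval z (minpoly ℚ α) = 0 ∧ ‖z‖ = 1

theorem abs_small_nd (x : ℝ) (t : ℤ) (h : |x - t| < 1 / 2) : nd x = |x - t| := by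
  have : round x = t := by
    rw [round_eq, Int.floor_eq_iff]
    rw [abs_lt] at h
    constructor <;> linarith
  rw [nd, this]

theorem salem_small (α : ℝ) (hS : IsSalem α) (ε : ℝ) (hε : 0 < ε) :
    ∃ F : ℝ, 0 < F ∧ F < ε ∧ ∀ k : ℕ, k * F < 1 / 2 →
      ∃ ξ : ℝ, limsup (fun n : ℕ => nd (ξ * α ^ n)) atTop = k * F := by
  classical
  obtain ⟨hα, hint, hconj, hone⟩ := hS
  have hintQ : IsIntegral ℚ α := hint.tower_top
  set K := IntermediateField.adjoin ℚ {α} with hK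
  have : FiniteDimensional ℚ K := IntermediateField.adjoin.finiteDimensional hintQ
  set g : K := IntermediateField.AdjoinSimple.gen ℚ α with hg
  have hgα : (g : ℝ) = α := IntermediateField.AdjoinSimple.coe_gen ℚ α
  set pb := IntermediateField.adjoin.powerBasis hintQ with hpb
  have hpbg : pb.gen = g := IntermediateField.adjoin.powerBasis_gen hintQ
  have hmin : minpoly ℚ g = minpoly ℚ α := IntermediateField.minpoly_gen ℚ α
  have hroot : ∀ σ : K →ₐ[ℚ] ℂ, aeval (σ g) (minpoly ℚ α) = 0 := by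
    intro σ
    rw [← hmin, aeval_algHom_apply, minpoly.aeval, map_zero]
  have hex : ∀ z : ℂ, aeval z (minpoly ℚ α) = 0 → ∃ σ : K →ₐ[ℚ] ℂ, σ g = z := by
    intro z hz
    have hz' : aeval z (minpoly ℚ pb.gen) = 0 := by rw [hpbg, hmin]; exact hz
    refine ⟨pb.lift z hz', ?_⟩
    rw [← hpbg]
    exact pb.lift_gen z hz'
  have hinj : ∀ σ τ : K →ₐ[ℚ] ℂ, σ g = τ g → σ = τ := by
    intro σ τ h
    apply pb.algHom_ext
    rw [hpbg]; exact h
  have hgint : IsIntegral ℤ g := by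
    have : IsIntegral ℤ ((algebraMap K ℝ) g) := by
      have e : (algebraMap K ℝ) g = α := hgα
      rw [e]; exact hint
    exact (isIntegral_algebraMap_iff (algebraMap K ℝ).injective).mp this
  obtain ⟨σ₀, hσ₀⟩ := hex (α : ℂ) (by
    have : ((α : ℝ) : ℂ) = algebraMap ℝ ℂ α := rfl
    rw [this, aeval_algebraMap_apply, minpoly.aeval, map_zero])
  obtain ⟨z₁, hz₁, hz₁n⟩ := hone
  obtain ⟨σ₁, hσ₁⟩ := hex z₁ hz₁
  -- the recurrence on the torus
  set ι := {σ : K →ₐ[ℚ] ℂ // σ ≠ σ₀} with hι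
  have hle : ∀ i : ι, ‖i.1 g‖ ≤ 1 := by
    intro i
    apply hconj _ (hroot i.1)
    intro h
    apply i.2
    apply hinj
    rw [h, hσ₀]
  set N : ℝ := (Fintype.card ι : ℝ) with hN
  have hN0 : 0 ≤ N := Nat.cast_nonneg _
  obtain ⟨n, hn1, a, hna⟩ := torus_rec (fun i : ι => i.1 g) hle (ε / (2 * (N + 1))) (by positivity)
  set c : ι → ℂ := fun i => (i.1 g) ^ a * ((i.1 g) ^ n - 1) with hc
  have hT : ∀ m : ℕ, ∃ t : ℤ, (t : ℂ) = ∑ σ : (K →ₐ[ℚ] ℂ), (σ g) ^ a * ((σ g) ^ n - 1) * (σ g) ^ m := by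
    intro m
    have h1 : IsIntegral ℤ (g ^ a * (g ^ n - 1) * g ^ m) :=
      ((hgint.pow a).mul ((hgint.pow n).sub isIntegral_one)).mul (hgint.pow m)
    have h2 : IsIntegral ℤ (Algebra.trace ℚ K (g ^ a * (g ^ n - 1) * g ^ m)) :=
      Algebra.isIntegral_trace h1
    obtain ⟨t, ht⟩ := IsIntegrallyClosed.isIntegral_iff.mp h2
    refine ⟨t, ?_⟩
    have h3 := trace_eq_sum_embeddings ℂ (K := ℚ) (L := K) (x := g ^ a * (g ^ n - 1) * g ^ m)
    rw [← ht] at h3
    have h4 : (algebraMap ℚ ℂ) ((algebraMap ℤ ℚ) t) = (t : ℂ) := by simp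
    rw [h4] at h3
    rw [h3]
    apply Finset.sum_congr rfl
    intro σ _
    simp
  choose T hT using hT
  set e : ℕ → ℝ := fun m => (T m : ℝ) - α ^ a * (α ^ n - 1) * α ^ m with he
  have hesum : ∀ m, (e m : ℂ) = ∑ i : ι, c i * (i.1 g) ^ m := by
    intro m
    have h1 : (e m : ℂ) = (T m : ℂ) - (α : ℂ) ^ a * ((α : ℂ) ^ n - 1) * (α : ℂ) ^ m := by
      simp only [he]; push_cast; ring
    rw [h1, hT m]
    rw [← Finset.add_sum_erase Finset.univ _ (Finset.mem_univ σ₀), hσ₀]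
    have h2 : ∑ i : ι, c i * (i.1 g) ^ m =
        ∑ σ ∈ Finset.univ.erase σ₀, (σ g) ^ a * ((σ g) ^ n - 1) * (σ g) ^ m := by
      simp only [hc]
      rw [Finset.sum_subtype (Finset.univ.erase σ₀) (p := fun σ => σ ≠ σ₀) (by intro x; simp)
        (fun σ : K →ₐ[ℚ] ℂ => (σ g) ^ a * ((σ g) ^ n - 1) * (σ g) ^ m)]
    rw [h2]
    ring
  have heb : ∀ m, |e m| ≤ ε / 2 := by
    intro m
    have h1 : |e m| = ‖(e m : ℂ)‖ := by rw [Complex.norm_real, Real.norm_eq_abs]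
    rw [h1, hesum]
    calc ‖∑ i : ι, c i * (i.1 g) ^ m‖ ≤ ∑ i : ι, ‖c i * (i.1 g) ^ m‖ := norm_sum_le _ _
      _ ≤ ∑ i : ι, ε / (2 * (N + 1)) := by
        apply Finset.sum_le_sum
        intro i _
        rw [norm_mul, norm_pow]
        have h2 : ‖i.1 g‖ ^ m ≤ 1 := pow_le_one₀ (norm_nonneg _) (hle i)
        have h3 := (hna i).le
        calc ‖c i‖ * ‖i.1 g‖ ^ m ≤ ‖c i‖ * 1 := by gcongr
          _ ≤ _ := by rw [mul_one]; exact h3
      _ = N * (ε / (2 * (N + 1))) := by rw [Finset.sum_const, Finset.card_univ, nsmul_eq_mul]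
      _ ≤ ε / 2 := by
        rw [mul_div_assoc', div_le_div_iff₀ (by positivity) (by norm_num)]
        nlinarith
  have hbd : IsBoundedUnder (· ≤ ·) atTop (fun m => |e m|) := isBoundedUnder_of ⟨ε / 2, heb⟩
  have hcob : IsCoboundedUnder (· ≤ ·) atTop (fun m => |e m|) :=
    (isBoundedUnder_of ⟨0, fun m => abs_nonneg (e m)⟩ : IsBoundedUnder (· ≥ ·) atTop
      (fun m => |e m|)).isCoboundedUnder_le
  set F : ℝ := limsup (fun m => |e m|) atTop with hF
  have hFpos : 0 < F := by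
    by_contra hneg
    push Not at hneg
    have hlim : Tendsto (fun m => (e m : ℂ)) atTop (𝓝 0) := by
      rw [tendsto_zero_iff_norm_tendsto_zero]
      rw [Metric.tendsto_atTop]
      intro δ hδ
      have h1 := eventually_lt_of_limsup_lt (lt_of_le_of_lt hneg hδ) hbd
      obtain ⟨M, hM⟩ := eventually_atTop.mp h1
      refine ⟨M, fun m hm => ?_⟩
      rw [Complex.norm_real, Real.dist_eq, sub_zero, Real.norm_eq_abs, abs_abs]
      exact hM m hm
    -- separate the unimodular part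
    set U : Finset ι := Finset.univ.filter (fun i : ι => ‖i.1 g‖ = 1) with hU
    set V : Finset ι := Finset.univ.filter (fun i : ι => ¬ ‖i.1 g‖ = 1) with hV
    have hsplit : ∀ m, (e m : ℂ) = ∑ i ∈ U, c i * (i.1 g) ^ m + ∑ i ∈ V, c i * (i.1 g) ^ m := by
      intro m
      rw [hesum, hU, hV, Finset.sum_filter_add_sum_filter_not]
    have hVlim : Tendsto (fun m => ∑ i ∈ V, c i * (i.1 g) ^ m) atTop (𝓝 0) := by
      rw [show (0 : ℂ) = ∑ i ∈ V, c i * 0 by simp]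
      apply tendsto_finsetSum
      intro i hi
      apply Tendsto.const_mul
      apply tendsto_pow_atTop_nhds_zero_of_norm_lt_one
      exact lt_of_le_of_ne (hle i) (Finset.mem_filter.mp hi).2
    have hUlim : Tendsto (fun m => ∑ i ∈ U, c i * (i.1 g) ^ m) atTop (𝓝 0) := by
      have := hlim.sub hVlim
      rw [sub_zero] at this
      refine this.congr (fun m => ?_)
      rw [hsplit m]; ring
    have hne₁ : σ₁ ≠ σ₀ := by
      intro h
      rw [h, hσ₀] at hσ₁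
      rw [← hσ₁, Complex.norm_real, Real.norm_eq_abs, abs_of_pos (by linarith)] at hz₁n
      linarith
    have h0 := coeff_zero U (fun i : ι => i.1 g) c (fun i hi => (Finset.mem_filter.mp hi).2)
      (fun i _ j _ hij => Subtype.ext (hinj _ _ hij)) hUlim ⟨σ₁, hne₁⟩ (by
        rw [hU, Finset.mem_filter]
        refine ⟨Finset.mem_univ _, ?_⟩
        change ‖σ₁ g‖ = 1
        rw [hσ₁, hz₁n])
    simp only [hc, hσ₁] at h0
    have hz0 : z₁ ≠ 0 := by
      intro h; rw [h, norm_zero] at hz₁n; exact zero_ne_one hz₁n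
    rcases mul_eq_zero.mp h0 with h | h
    · exact pow_ne_zero a hz0 h
    · have h1 : σ₁ (g ^ n) = σ₁ 1 := by
        rw [map_pow, hσ₁, map_one]; linear_combination h
      have h2 := σ₁.injective h1
      have h3 : (g : ℝ) ^ n = 1 := by exact_mod_cast congrArg (algebraMap K ℝ) h2
      rw [hgα] at h3
      have h4 : 1 < α ^ n := one_lt_pow₀ hα (by omega)
      linarith
  have hFlt : F < ε := by
    have : F ≤ ε / 2 := limsup_le_of_le hcob (Eventually.of_forall heb)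
    linarith
  refine ⟨F, hFpos, hFlt, fun k hk => ⟨(k : ℝ) * (α ^ a * (α ^ n - 1)), ?_⟩⟩
  have hmono : Monotone (fun x : ℝ => (k : ℝ) * x) := fun x y hxy =>
    mul_le_mul_of_nonneg_left hxy (Nat.cast_nonneg k)
  have h1 := hmono.map_limsup_of_continuousAt (F := atTop) (fun m => |e m|)
    (continuous_const.mul continuous_id).continuousAt hbd hcob
  have h1' : (k : ℝ) * F = limsup (fun m => (k : ℝ) * |e m|) atTop := h1
  have h2 : ∀ᶠ m in atTop, (k : ℝ) * |e m| < 1 / 2 := by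
    rw [h1'] at hk
    refine eventually_lt_of_limsup_lt hk (isBoundedUnder_of ⟨(k : ℝ) * (ε / 2), fun m => ?_⟩)
    exact mul_le_mul_of_nonneg_left (heb m) (Nat.cast_nonneg k)
  rw [h1']
  apply limsup_congr
  filter_upwards [h2] with m hm
  have h3 : (k : ℝ) * (α ^ a * (α ^ n - 1)) * α ^ m - ((k * T m : ℤ) : ℝ) = - (k * e m) := by
    simp only [he]; push_cast; ring
  have h4 : |(k : ℝ) * (α ^ a * (α ^ n - 1)) * α ^ m - ((k * T m : ℤ) : ℝ)| = k * |e m| := by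
    rw [h3, abs_neg, abs_mul, abs_of_nonneg (Nat.cast_nonneg k : (0 : ℝ) ≤ k)]
  rw [abs_small_nd _ (k * T m) (by rw [h4]; exact hm), h4]

/-- The spectrum. -/
def LagSet (α : ℝ) : Set ℝ :=
  {v | ∃ ξ : ℝ, limsup (fun n : ℕ => nd (ξ * α ^ n)) atTop = v}

/-- The spectrum of an algebraic integer `> 1` is countable near `0`. -/
theorem lag_countable (α : ℝ) (hα : 1 < α) (hint : IsIntegral ℤ α) :
    ∃ c : ℝ, 0 < c ∧ (LagSet α ∩ Set.Iio c).Countable := by
  obtain ⟨A, hA, hA0⟩ := hint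
  have hAne : A ≠ 0 := hA.ne_zero
  refine ⟨1 / len A, by have := len_pos A hAne; positivity, ?_⟩
  set X : Set (ℕ → ℝ) := {r | ∃ ξ : ℝ, r = fun n => ξ * α ^ n} with hX
  have hrec : ∀ r ∈ X, Rec A r := by
    rintro r ⟨ξ, rfl⟩ n
    rw [← aeval_def, aeval_eq_sum_range] at hA0
    simp only [zsmul_eq_mul] at hA0
    calc ∑ j ∈ Finset.range (A.natDegree + 1), (A.coeff j : ℝ) * (ξ * α ^ (n + j))
        = ξ * α ^ n * ∑ j ∈ Finset.range (A.natDegree + 1), (A.coeff j : ℝ) * α ^ j := by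
          rw [Finset.mul_sum]
          apply Finset.sum_congr rfl
          intro j _
          rw [pow_add]; ring
      _ = 0 := by rw [hA0, mul_zero]
  have hinj : ∀ r ∈ X, ∀ r' ∈ X, (∃ B : ℝ, ∀ n, |r n - r' n| ≤ B) → r = r' := by
    rintro r ⟨ξ, rfl⟩ r' ⟨ξ', rfl⟩ ⟨B, hB⟩
    have : ξ = ξ' := by
      by_contra hne
      have hpos : 0 < |ξ - ξ'| := abs_pos.mpr (sub_ne_zero.mpr hne)
      obtain ⟨n, hn⟩ := pow_unbounded_of_one_lt (B / |ξ - ξ'|) hα
      have h1 := hB n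
      rw [← sub_mul, abs_mul, abs_of_pos (by positivity : (0 : ℝ) < α ^ n)] at h1
      rw [div_lt_iff₀ hpos] at hn
      linarith
    rw [this]
  have h := countable_core A hAne X hrec hinj
  refine (h.image (fun r => limsup (fun n => nd (r n)) atTop)).mono ?_
  rintro v ⟨⟨ξ, hξ⟩, hv⟩
  refine ⟨fun n => ξ * α ^ n, ⟨⟨ξ, rfl⟩, ?_⟩, hξ⟩
  change limsup (fun n => nd (ξ * α ^ n)) atTop < _
  rw [hξ]; exact hv

/-- The spectrum of a Salem number is dense in `[0,1/2]`. -/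
theorem salem_dense (α : ℝ) (hS : IsSalem α) (x : ℝ) (hx0 : 0 < x) (hx : x < 1 / 2) :
    x ∈ closure (LagSet α) := by
  rw [Metric.mem_closure_iff]
  intro ε hε
  obtain ⟨F, hF0, hFε, hF⟩ := salem_small α hS ε hε
  have h1 : (⌊x / F⌋₊ : ℝ) * F ≤ x := by
    have := Nat.floor_le (by positivity : 0 ≤ x / F)
    rwa [le_div_iff₀ hF0] at this
  have h2 : x < ((⌊x / F⌋₊ : ℝ) + 1) * F := by
    have := Nat.lt_floor_add_one (x / F)
    rwa [div_lt_iff₀ hF0] at this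
  obtain ⟨ξ, hξ⟩ := hF ⌊x / F⌋₊ (by linarith)
  refine ⟨(⌊x / F⌋₊ : ℝ) * F, ⟨ξ, hξ⟩, ?_⟩
  rw [Real.dist_eq, abs_of_nonneg (by linarith)]
  linarith

/-- The spectrum of a Salem number is not closed. -/
theorem salem_not_closed (α : ℝ) (hS : IsSalem α) :
    ∃ η ∈ Set.Ioo (0 : ℝ) (1 / 2), η ∈ closure (LagSet α) ∧ η ∉ LagSet α := by
  obtain ⟨c, hc, hcount⟩ := lag_countable α hS.one_lt hS.integral
  obtain ⟨v, hv, hvL⟩ := exists_missing (LagSet α) c hc hcount
  have hv2 : v < 1 / 2 := hv.2.trans_le (min_le_right _ _)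
  exact ⟨v, ⟨hv.1, hv2⟩, salem_dense α hS v hv.1 hv2, hvL⟩

end Pool.Agent.Q3.Spec
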