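import Mathlib
import Pool.Agent.Q3.Spec.Salem

/-!
# The smallest Salem number of degree four
-/

set_option autoImplicit false

open Filter Topology Polynomial

namespace Pool.Agent.Q3.Spec

/-- `X⁴ - X³ - X² - X + 1`. -/
noncomputable def P4 : ℤ[X] := X ^ 4 - X ^ 3 - X ^ 2 - X + 1

theorem P4_natDegree : P4.natDegree = 4 := by
  unfold P4; compute_degree!

theorem P4_monic : P4.Monic := by
  unfold P4; monicity!

theorem P4_coeff_zero : P4.coeff 0 = 1 := by
  simp [P4]

theorem P4_irreducible : Irreducible P4 := by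
  set Q : (ZMod 2)[X] := P4.map (Int.castRingHom (ZMod 2)) with hQ
  have hQ' : Q = X ^ 4 + X ^ 3 + X ^ 2 + X + 1 := by
    rw [hQ, P4]
    simp only [Polynomial.map_sub, Polynomial.map_add, Polynomial.map_pow, map_X, Polynomial.map_one]
    have h2 : (2 : (ZMod 2)[X]) = 0 := by
      exact_mod_cast CharP.cast_eq_zero (ZMod 2)[X] 2
    linear_combination (- X ^ 3 - X ^ 2 - X) * h2
  have hQm : Q.Monic := P4_monic.map _
  have hQd : Q.natDegree = 4 := by rw [hQ, P4_monic.natDegree_map, P4_natDegree]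
  have hQne : Q ≠ 1 := by
    intro h; rw [h, natDegree_one] at hQd; omega
  apply Monic.irreducible_of_irreducible_map (Int.castRingHom (ZMod 2)) P4 P4_monic
  rw [← hQ, hQm.irreducible_iff_lt_natDegree_lt hQne]
  intro q hq hqd hdvd
  rw [hQd, Finset.mem_Ioc] at hqd
  obtain ⟨r, hr⟩ := hdvd
  have hrm : r.Monic := by
    have := hQm
    rw [hr] at this
    exact hq.of_mul_monic_left this
  have hdeg : q.natDegree + r.natDegree = 4 := by
    rw [← hQd, hr, hq.natDegree_mul hrm]
  have hco : ∀ n, Q.coeff n = (X ^ 4 + X ^ 3 + X ^ 2 + X + 1 : (ZMod 2)[X]).coeff n := by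
    intro n; rw [hQ']
  rcases (by omega : q.natDegree = 1 ∨ q.natDegree = 2) with h | h
  · -- linear factor: a root
    have hq1 : q = X + C (q.coeff 0) := by
      have := hq.eq_X_add_C h
      exact this
    have h0 : ∀ t : ZMod 2, q.eval t = t + q.coeff 0 := by
      intro t
      conv_lhs => rw [hq1]
      simp
    have hroot : Q.eval (-(q.coeff 0)) = 0 := by
      rw [hr, eval_mul, h0, neg_add_cancel, zero_mul]
    rw [hQ'] at hroot
    simp only [eval_add, eval_pow, eval_X, eval_one] at hroot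
    revert hroot
    generalize q.coeff 0 = t
    revert t
    decide
  · have hq2 : q = X ^ 2 + C (q.coeff 1) * X + C (q.coeff 0) := by
      ext n
      have hlc := hq.coeff_natDegree
      rw [h] at hlc
      rcases n with _ | _ | _ | n
      · simp
      · simp [coeff_X]
      · simp [hlc, coeff_X]
      · rw [coeff_eq_zero_of_natDegree_lt (by omega)]
        simp [coeff_X, coeff_C, coeff_X_pow]
    have hr2 : r = X ^ 2 + C (r.coeff 1) * X + C (r.coeff 0) := by
      have hrd : r.natDegree = 2 := by omega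
      ext n
      have hlc := hrm.coeff_natDegree
      rw [hrd] at hlc
      rcases n with _ | _ | _ | n
      · simp
      · simp [coeff_X]
      · simp [hlc, coeff_X]
      · rw [coeff_eq_zero_of_natDegree_lt (by omega)]
        simp [coeff_X, coeff_C, coeff_X_pow]
    have key : ∀ x y z w : ZMod 2, (X ^ 4 + X ^ 3 + X ^ 2 + X + 1 : (ZMod 2)[X]) ≠
        (X ^ 2 + C x * X + C y) * (X ^ 2 + C z * X + C w) := by
      intro x y z w heq
      have e : (X ^ 2 + C x * X + C y) * (X ^ 2 + C z * X + C w) =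
          X ^ 4 + C (x + z) * X ^ 3 + C (y + w + x * z) * X ^ 2 + C (x * w + y * z) * X + C (y * w) := by
        simp only [C_add, C_mul]; ring
      rw [e] at heq
      have c0 := congrArg (fun p => coeff p 0) heq
      have c1 := congrArg (fun p => coeff p 1) heq
      have c2 := congrArg (fun p => coeff p 2) heq
      have c3 := congrArg (fun p => coeff p 3) heq
      simp only [coeff_add, coeff_C_mul, coeff_X_pow, coeff_X, coeff_C, coeff_one] at c0 c1 c2 c3
      norm_num at c0 c1 c2 c3
      clear heq e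
      revert c0 c1 c2 c3
      revert x y z w
      decide
    apply key (q.coeff 1) (q.coeff 0) (r.coeff 1) (r.coeff 0)
    rw [← hq2, ← hr2, ← hr, hQ']

/-- Quadratic factorisation over the reals. -/
theorem P4_factor (w : ℂ) (hw : aeval w P4 = 0) :
    w ^ 2 - (((1 + √13) / 2 : ℝ) : ℂ) * w + 1 = 0 ∨ w ^ 2 - (((1 - √13) / 2 : ℝ) : ℂ) * w + 1 = 0 := by
  have h13 : ((√13 : ℝ) : ℂ) ^ 2 = 13 := by
    have : (√13 : ℝ) ^ 2 = 13 := Real.sq_sqrt (by norm_num)
    exact_mod_cast this
  have h : w ^ 4 - w ^ 3 - w ^ 2 - w + 1 = 0 := by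
    simpa [P4] using hw
  have h2 : (w ^ 2 - (((1 + √13) / 2 : ℝ) : ℂ) * w + 1) * (w ^ 2 - (((1 - √13) / 2 : ℝ) : ℂ) * w + 1)
      = w ^ 4 - w ^ 3 - w ^ 2 - w + 1 := by
    push_cast
    linear_combination (-(w ^ 2) / 4) * h13
  rw [h] at h2
  exact mul_eq_zero.mp h2

theorem exists_salem : ∃ α : ℝ, IsSalem α ∧ minpoly ℚ α = P4.map (algebraMap ℤ ℚ) := by
  set s : ℝ := √13 with hs
  have hs2 : s ^ 2 = 13 := Real.sq_sqrt (by norm_num)
  have hs3 : 3 < s := by rw [hs]; exact Real.lt_sqrt_of_sq_lt (by norm_num)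
  have hs4 : s < 4 := by rw [hs, Real.sqrt_lt' (by norm_num)]; norm_num
  set t : ℝ := (1 + s) / 2 with ht
  set u : ℝ := (1 - s) / 2 with hu
  set D : ℝ := √(t ^ 2 - 4) with hD
  have hDpos : 0 < t ^ 2 - 4 := by nlinarith
  have hD2 : D ^ 2 = t ^ 2 - 4 := Real.sq_sqrt hDpos.le
  have hD0 : 0 < D := Real.sqrt_pos.mpr hDpos
  set α : ℝ := (t + D) / 2 with hα
  have hquad : α ^ 2 - t * α + 1 = 0 := by rw [hα]; nlinarith
  have hα1 : 1 < α := by rw [hα]; nlinarith
  have hroot : α ^ 4 - α ^ 3 - α ^ 2 - α + 1 = 0 := by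
    have : (α ^ 2 - t * α + 1) * (α ^ 2 - u * α + 1) = α ^ 4 - α ^ 3 - α ^ 2 - α + 1 := by
      rw [ht, hu]; linear_combination (-(α ^ 2) / 4) * hs2
    rw [← this, hquad, zero_mul]
  have haev : aeval α P4 = 0 := by simpa [P4] using hroot
  have hint : IsIntegral ℤ α := ⟨P4, P4_monic, by rw [← aeval_def]; exact haev⟩
  have hmin : minpoly ℚ α = P4.map (algebraMap ℤ ℚ) := by
    symm
    apply minpoly.eq_of_irreducible_of_monic
    · exact (P4_monic.isPrimitive.irreducible_iff_irreducible_map_fraction_map (K := ℚ)).mp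
        P4_irreducible
    · rw [aeval_map_algebraMap]; exact haev
    · exact P4_monic.map _
  refine ⟨α, ⟨hα1, hint, ?_, ?_⟩, hmin⟩
  · intro z hz hzα
    rw [hmin, aeval_map_algebraMap] at hz
    have hα0 : α ≠ 0 := by linarith
    rcases P4_factor z hz with h | h
    · -- z = α or 1/α
      have h1 : (z - α) * (z - (α⁻¹ : ℝ)) = 0 := by
        have ht' : t = α + α⁻¹ := by field_simp; nlinarith
        rw [← hs, ← ht, ht'] at h
        have h3 : (α : ℂ) * ((α⁻¹ : ℝ) : ℂ) = 1 := by
          rw [← Complex.ofReal_mul, mul_inv_cancel₀ hα0, Complex.ofReal_one]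
        push_cast at h h3 ⊢
        linear_combination h + h3
      rcases mul_eq_zero.mp h1 with h2 | h2
      · exact absurd (sub_eq_zero.mp h2) hzα
      · rw [sub_eq_zero.mp h2, Complex.norm_real, Real.norm_eq_abs, abs_of_pos (by positivity)]
        exact inv_le_one_of_one_le₀ hα1.le
    · apply le_of_eq
      rw [← hs, ← hu] at h
      -- |z|^2 = 1
      have hre := congrArg Complex.re h
      have him := congrArg Complex.im h
      simp [pow_two] at hre him
      have hz2 : z.re * z.re + z.im * z.im = 1 := by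
        by_cases hi : z.im = 0
        · exfalso
          rw [hi] at hre
          nlinarith [sq_nonneg (z.re - u / 2)]
        · have h4 : 2 * z.re = u := by
            have : z.im * (2 * z.re - u) = 0 := by linarith
            rcases mul_eq_zero.mp this with h5 | h5
            · exact absurd h5 hi
            · linarith
          nlinarith
      have h5 : ‖z‖ ^ 2 = 1 := by
        rw [← Complex.normSq_eq_norm_sq, Complex.normSq_apply, hz2]
      exact (pow_eq_one_iff_of_nonneg (norm_nonneg _) two_ne_zero).mp h5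
  · set E : ℝ := √(4 - u ^ 2) with hE
    have hu2 : 0 < 4 - u ^ 2 := by nlinarith
    have hE2 : E ^ 2 = 4 - u ^ 2 := Real.sq_sqrt hu2.le
    refine ⟨⟨u / 2, E / 2⟩, ?_, ?_⟩
    · rw [hmin, aeval_map_algebraMap]
      set z : ℂ := ⟨u / 2, E / 2⟩ with hz
      have hzq : z ^ 2 - (u : ℂ) * z + 1 = 0 := by
        apply Complex.ext
        · simp [hz, pow_two]; nlinarith
        · simp [hz, pow_two]; ring
      have h13 : ((s : ℝ) : ℂ) ^ 2 = 13 := by exact_mod_cast hs2
      have : (z ^ 2 - (t : ℂ) * z + 1) * (z ^ 2 - (u : ℂ) * z + 1) = z ^ 4 - z ^ 3 - z ^ 2 - z + 1 := by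
        rw [ht, hu]; push_cast
        linear_combination (-(z ^ 2) / 4) * h13
      rw [hzq, mul_zero] at this
      simpa [P4] using this.symm
    · have h5 : ‖(⟨u / 2, E / 2⟩ : ℂ)‖ ^ 2 = 1 := by
        rw [← Complex.normSq_eq_norm_sq, Complex.normSq_apply]
        change u / 2 * (u / 2) + E / 2 * (E / 2) = 1
        linear_combination hE2 / 4
      exact (pow_eq_one_iff_of_nonneg (norm_nonneg _) two_ne_zero).mp h5

end Pool.Agent.Q3.Spec
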