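import Mathlib
import Pool.Agent.Q3.Spec.Mult
import Pool.Agent.Q3.Spec.Quartic

/-!
# Non-closed multiplicative Lagrange spectra
-/

set_option autoImplicit false

open Filter Topology Polynomial

namespace Pool.Agent.Q3.Spec

theorem LagSet_subset (α : ℝ) (hS : IsSalem α) (P : ℤ[X]) (hP : P ≠ 0)
    (hmin : minpoly ℚ α = P.map (algebraMap ℤ ℚ)) (k : ℕ) : LagSet α ⊆ LSpec k P := by
  rintro v ⟨ξ, hξ⟩
  have hexp : expRoots P = {(α : ℂ)} := by
    ext z
    rw [mem_expRoots P hP, Finset.mem_singleton]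
    constructor
    · rintro ⟨h1, h2⟩
      by_contra hne
      have := hS.conj_le z (by rw [hmin, aeval_map_algebraMap]; exact h1) hne
      linarith
    · rintro rfl
      constructor
      · have h1 : aeval α P = 0 := by
          have := minpoly.aeval ℚ α
          rwa [hmin, aeval_map_algebraMap] at this
        have h2 : ((α : ℝ) : ℂ) = algebraMap ℝ ℂ α := rfl
        rw [h2, aeval_algebraMap_apply, h1, map_zero]
      · rw [Complex.norm_real, Real.norm_eq_abs, abs_of_pos (by linarith [hS.one_lt])]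
        exact hS.one_lt
  refine ⟨fun _ => C (ξ : ℂ), ?_, fun n => ξ * α ^ n, ?_, hξ⟩
  · intro z _
    refine ⟨by rw [natDegree_C]; exact Nat.zero_le _, ?_⟩
    rw [map_C, Complex.conj_ofReal]
  · intro n
    rw [hexp, Finset.sum_singleton, eval_C]
    push_cast
    ring

theorem LSpec_missing (P : ℤ[X]) (hP : P ≠ 0) (k : ℕ) :
    ∃ v ∈ Set.Ioo (0 : ℝ) (1 / 2), v ∉ LSpec k P := by
  have hpos : 0 < 1 / len (P ^ (k + 1)) := by
    have := len_pos (P ^ (k + 1)) (pow_ne_zero _ hP)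
    positivity
  obtain ⟨v, hv, hvL⟩ := exists_missing (LSpec k P) _ hpos (LSpec_countable P hP k)
  exact ⟨v, ⟨hv.1, hv.2.trans_le (min_le_right _ _)⟩, hvL⟩

theorem LSpec_P4_not_closed (k : ℕ) : ¬ IsClosed (LSpec k P4) := by
  intro hcl
  obtain ⟨α, hS, hmin⟩ := exists_salem
  have hP : P4 ≠ 0 := P4_monic.ne_zero
  obtain ⟨v, hv, hvL⟩ := LSpec_missing P4 hP k
  apply hvL
  rw [← hcl.closure_eq]
  exact closure_mono (LagSet_subset α hS P4 hP hmin k) (salem_dense α hS v hv.1 hv.2)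

theorem P4_roots : (∃ z : ℂ, aeval z P4 = 0 ∧ 1 < ‖z‖) ∧ ∃ z : ℂ, aeval z P4 = 0 ∧ ‖z‖ = 1 := by
  obtain ⟨α, hS, hmin⟩ := exists_salem
  constructor
  · refine ⟨(α : ℂ), ?_, ?_⟩
    · have h1 : aeval α P4 = 0 := by
        have := minpoly.aeval ℚ α
        rwa [hmin, aeval_map_algebraMap] at this
      have h2 : ((α : ℝ) : ℂ) = algebraMap ℝ ℂ α := rfl
      rw [h2, aeval_algebraMap_apply, h1, map_zero]
    · rw [Complex.norm_real, Real.norm_eq_abs, abs_of_pos (by linarith [hS.one_lt])]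
      exact hS.one_lt
  · obtain ⟨z, hz, hz1⟩ := hS.conj_one
    rw [hmin, aeval_map_algebraMap] at hz
    exact ⟨z, hz, hz1⟩

end Pool.Agent.Q3.Spec
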